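import Pool.Agent.Helper71.UN.StD

/-!
# Project UN, module TTA: tetrahedral cell, three double exchanges

Hypotheses: `StFF`, `StSTP`, `StCVX`, `StFRO`, `StROT`.
-/

set_option autoImplicit false

open Set Filter Topology Matrix
open scoped ContDiff ComplexConjugate

noncomputable section

namespace Pool.Agent.Helper70.UN

open Pool.Agent.Helper71.UN
open Pool.Agent.Helper54.TRI (Sx ez FF UU inv4 sU StFF)

/-! ### rotations -/

private theorem rt_off_right {n : ℕ} {a b : Fin n} (e θ : ℝ) {x k : Fin n} (hka : k ≠ a)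
    (hkb : k ≠ b) : rt a b e θ x k = if x = k then 1 else 0 := by
  unfold rt
  simp only [Matrix.of_apply, hka, hkb, and_false, if_false]

private theorem rt_off_left {n : ℕ} {a b : Fin n} (e θ : ℝ) {x k : Fin n} (hka : k ≠ a)
    (hkb : k ≠ b) : rt a b e θ k x = if k = x then 1 else 0 := by
  unfold rt
  simp only [Matrix.of_apply, hka, hkb, false_and, if_false]

private theorem rt_mul {n : ℕ} {a b c d : Fin n} (e f θ φ : ℝ) (hca : c ≠ a) (hcb : c ≠ b)
    (hda : d ≠ a) (hdb : d ≠ b) (x y : Fin n) :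
    (rt a b e θ * rt c d f φ) x y =
      if y = c ∨ y = d then rt c d f φ x y else rt a b e θ x y := by
  rw [Matrix.mul_apply]
  by_cases hy : y = c ∨ y = d
  · rw [if_pos hy]
    have h1 : ∀ k, rt a b e θ x k * rt c d f φ k y = if x = k then rt c d f φ k y else 0 := by
      intro k
      by_cases hk : k = a ∨ k = b
      · have h2 : rt c d f φ k y = 0 := by
          rw [rt_off_left]
          · rw [if_neg]
            rcases hy with rfl | rfl <;> rcases hk with rfl | rfl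
            · exact Ne.symm hca
            · exact Ne.symm hcb
            · exact Ne.symm hda
            · exact Ne.symm hdb
          · rcases hk with rfl | rfl
            · exact Ne.symm hca
            · exact Ne.symm hcb
          · rcases hk with rfl | rfl
            · exact Ne.symm hda
            · exact Ne.symm hdb
        rw [h2, mul_zero, ite_self]
      · push Not at hk
        rw [rt_off_right e θ hk.1 hk.2]
        split_ifs <;> simp
    simp only [h1, Finset.sum_ite_eq, Finset.mem_univ, if_true]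
  · rw [if_neg hy]
    push Not at hy
    have h1 : ∀ k, rt a b e θ x k * rt c d f φ k y = if k = y then rt a b e θ x k else 0 := by
      intro k
      rw [rt_off_right f φ hy.1 hy.2]
      split_ifs <;> simp
    simp only [h1, Finset.sum_ite_eq', Finset.mem_univ, if_true]

/-! ### the vectors and the family -/

section fam

variable {n : ℕ} (u : Fin n → Fin 4) (w : Fin 4 → Fin n) (L : Fin 4 → Fin 4) (ς : Fin 4 → ℝ)

/-- the vector of the label `j` -/
private def vv (f : Fin 3 → ℝ) (j : Fin 4) (x : Fin n) : ℝ :=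
  ∑ i, if x = w i then ς i * UU f j i else 0

/-- the family -/
private def mm (z : Fin 3 → ℝ) : Fm n := fun l => Matrix.of fun x y =>
  (∑ j, if L j = l then vv w ς (FF z) j x * vv w ς (FF z) j y else 0) +
    if x = y ∧ (∀ i, x ≠ w i) ∧ u x = l then 1 else 0

variable {u w L ς}

private theorem vv_at (hw : Function.Injective w) (f : Fin 3 → ℝ) (j a : Fin 4) :
    vv w ς f j (w a) = ς a * UU f j a := by
  unfold vv
  rw [Finset.sum_eq_single a]
  · rw [if_pos rfl]
  · intro b _ hb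
    rw [if_neg]
    intro h
    exact hb (hw h).symm
  · intro h
    exact absurd (Finset.mem_univ a) h

private theorem vv_out (f : Fin 3 → ℝ) (j : Fin 4) {x : Fin n} (hx : ∀ i, x ≠ w i) :
    vv w ς f j x = 0 := by
  unfold vv
  exact Finset.sum_eq_zero fun i _ => if_neg (hx i)

/-- sums over the copies -/
private theorem sum_split (hw : Function.Injective w) (g : Fin n → ℝ) :
    ∑ c, g c = (∑ i, g (w i)) + ∑ c, if (∀ i, c ≠ w i) then g c else 0 := by
  classical
  have h1 : ∑ c, g c = (∑ c, if (∀ i, c ≠ w i) then 0 else g c) +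
      ∑ c, if (∀ i, c ≠ w i) then g c else 0 := by
    rw [← Finset.sum_add_distrib]
    refine Finset.sum_congr rfl fun c _ => ?_
    split_ifs <;> simp
  rw [h1]
  congr 1
  rw [← Finset.sum_image (f := g) (s := Finset.univ) (g := w) (fun a _ b _ h => hw h),
    Finset.sum_ite, Finset.sum_const_zero, zero_add]
  refine Finset.sum_congr ?_ fun _ _ => rfl
  ext c
  simp only [Finset.mem_filter, Finset.mem_univ, true_and, Finset.mem_image]
  push Not
  exact ⟨fun ⟨i, hi⟩ => ⟨i, hi.symm⟩, fun ⟨i, hi⟩ => ⟨i, hi.symm⟩⟩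

private theorem inv4_inv (s : Fin 3) (i : Fin 4) : inv4 s (inv4 s i) = i := by
  revert s i
  decide

private theorem frame_eq (hfr : StFRO) (hw : Function.Injective w) {z : Fin 3 → ℝ} {s : Fin 3}
    {u' : Fin n → Fin 4} {R : Matrix (Fin n) (Fin n) ℝ} {δ : Fin 4 → ℝ}
    (hδ : ∀ i, δ i * δ i = 1) (hu1 : ∀ i, u' (w i) = L (inv4 s i))
    (hu2 : ∀ x, (∀ i, x ≠ w i) → u' x = u x)
    (hR1 : ∀ x i, R x (w i) = δ i * vv w ς (FF z) (inv4 s i) x)
    (hR2 : ∀ x c, (∀ i, c ≠ w i) → R x c = if x = c then 1 else 0) :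
    fr R u' = mm u w L ς z := by
  funext l
  ext x y
  rw [(hfr n (fun _ _ => true) R u').1 l x y, sum_split hw]
  unfold mm
  rw [Matrix.of_apply]
  congr 1
  · -- the copies `w i`
    have h1 : ∀ i, (if u' (w i) = l then R x (w i) * R y (w i) else 0) =
        (fun j => if L j = l then vv w ς (FF z) j x * vv w ς (FF z) j y else 0) (inv4 s i) := by
      intro i
      simp only [hu1, hR1]
      split_ifs with h
      · calc δ i * vv w ς (FF z) (inv4 s i) x * (δ i * vv w ς (FF z) (inv4 s i) y)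
            = (δ i * δ i) * (vv w ς (FF z) (inv4 s i) x * vv w ς (FF z) (inv4 s i) y) := by ring
          _ = _ := by rw [hδ, one_mul]
      · rfl
    rw [Finset.sum_congr rfl fun i _ => h1 i]
    exact Equiv.sum_comp (Function.Involutive.toPerm (inv4 s) (inv4_inv s))
      (fun j => if L j = l then vv w ς (FF z) j x * vv w ς (FF z) j y else 0)
  · -- the other copies
    have h1 : ∀ c, (if (∀ i, c ≠ w i) then (if u' c = l then R x c * R y c else 0) else 0) =
        if c = x then (if x = y ∧ (∀ i, x ≠ w i) ∧ u x = l then (1 : ℝ) else 0) else 0 := by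
      intro c
      by_cases hc : ∀ i, c ≠ w i
      · rw [if_pos hc, hu2 c hc, hR2 x c hc, hR2 y c hc]
        by_cases hx : c = x
        · subst hx
          by_cases hy : y = c
          · subst hy
            simp [hc]
          · simp [hy, Ne.symm hy]
        · simp [hx, Ne.symm hx]
      · rw [if_neg hc]
        split_ifs with h1 h2
        · subst h1
          exact absurd h2.2.1 hc
        · rfl
        · rfl
    rw [Finset.sum_congr rfl fun c _ => h1 c, Finset.sum_ite_eq']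
    simp

private theorem UU_orth (f : Fin 3 → ℝ) (a b : Fin 4) :
    ∑ j, UU f j a * UU f j b = if a = b then ∑ s, f s ^ 2 else 0 := by
  fin_cases a <;> fin_cases b <;>
    simp [UU, inv4, sU, Fin.sum_univ_four, Fin.sum_univ_three] <;> ring

private theorem UU_diag (f : Fin 3 → ℝ) (j : Fin 4) : UU f j j = 0 := by
  fin_cases j <;> simp [UU, inv4, sU]

/-! ### admissibility -/

/-- the frame -/
private def QQ (_u : Fin n → Fin 4) (w : Fin 4 → Fin n) (ς : Fin 4 → ℝ) (z : Fin 3 → ℝ) :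
    Matrix (Fin n) (Fin n) ℝ := Matrix.of fun x c =>
  (∑ i, if c = w i then vv w ς (FF z) (inv4 0 i) x else 0) +
    if x = c ∧ (∀ i, c ≠ w i) then 1 else 0

private theorem QQ_at (hw : Function.Injective w) (z : Fin 3 → ℝ) (x : Fin n) (a : Fin 4) :
    QQ u w ς z x (w a) = vv w ς (FF z) (inv4 0 a) x := by
  unfold QQ
  rw [Matrix.of_apply, Finset.sum_eq_single a, if_pos rfl, if_neg, add_zero]
  · rintro ⟨-, h⟩
    exact h a rfl
  · intro b _ hb
    exact if_neg fun h => hb (hw h).symm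
  · intro h
    exact absurd (Finset.mem_univ a) h

private theorem QQ_out (z : Fin 3 → ℝ) (x : Fin n) {c : Fin n} (hc : ∀ i, c ≠ w i) :
    QQ u w ς z x c = if x = c then 1 else 0 := by
  unfold QQ
  rw [Matrix.of_apply, Finset.sum_eq_zero fun i _ => if_neg (hc i), zero_add]
  simp [hc]

private theorem QQ_orth (hw : Function.Injective w) (hς : ∀ i, ς i * ς i = 1) {z : Fin 3 → ℝ}
    (hz : ∑ s, FF z s ^ 2 = 1) : QQ u w ς z * (QQ u w ς z)ᵀ = 1 := by
  ext x y
  rw [Matrix.mul_apply, sum_split hw]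
  simp only [Matrix.transpose_apply, QQ_at hw]
  have h0 : ∑ i, vv w ς (FF z) (inv4 0 i) x * vv w ς (FF z) (inv4 0 i) y =
      ∑ j, vv w ς (FF z) j x * vv w ς (FF z) j y :=
    Equiv.sum_comp (Function.Involutive.toPerm (inv4 0) (inv4_inv 0))
      (fun j => vv w ς (FF z) j x * vv w ς (FF z) j y)
  rw [h0]
  have h2 : (∑ c, if (∀ i, c ≠ w i) then QQ u w ς z x c * QQ u w ς z y c else 0) =
      if (∀ i, x ≠ w i) ∧ x = y then 1 else 0 := by
    have h1 : ∀ c, (if (∀ i, c ≠ w i) then QQ u w ς z x c * QQ u w ς z y c else 0) =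
        if c = x then (if (∀ i, x ≠ w i) ∧ x = y then (1 : ℝ) else 0) else 0 := by
      intro c
      by_cases hc : ∀ i, c ≠ w i
      · rw [if_pos hc, QQ_out z x hc, QQ_out z y hc]
        by_cases hx : c = x
        · subst hx
          by_cases hy : y = c
          · subst hy
            simp [hc]
          · simp [hy, Ne.symm hy]
        · simp [hx, Ne.symm hx]
      · rw [if_neg hc]
        split_ifs with h1 h2
        · subst h1
          exact absurd h2.1 hc
        · rfl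
        · rfl
    rw [Finset.sum_congr rfl fun c _ => h1 c, Finset.sum_ite_eq']
    simp
  rw [h2, Matrix.one_apply]
  by_cases hx : ∀ i, x ≠ w i
  · rw [Finset.sum_eq_zero fun j _ => by rw [vv_out _ _ hx, zero_mul], zero_add]
    simp [hx]
  · have hx' := hx
    push Not at hx
    obtain ⟨a, rfl⟩ := hx
    rw [if_neg (fun h => hx' h.1), add_zero]
    by_cases hy : ∀ i, y ≠ w i
    · rw [Finset.sum_eq_zero fun j _ => by rw [vv_out _ _ hy, mul_zero], if_neg]
      exact fun h => hy a h.symm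
    · push Not at hy
      obtain ⟨b, rfl⟩ := hy
      have h3 : ∀ j, vv w ς (FF z) j (w a) * vv w ς (FF z) j (w b) =
          (ς a * ς b) * (UU (FF z) j a * UU (FF z) j b) := by
        intro j
        rw [vv_at hw, vv_at hw]
        ring
      rw [Finset.sum_congr rfl fun j _ => h3 j, ← Finset.mul_sum, UU_orth, hz]
      by_cases hab : a = b
      · subst hab
        rw [if_pos rfl, if_pos rfl, hς, one_mul]
      · rw [if_neg hab, if_neg (fun h => hab (hw h)), mul_zero]

private theorem fr_QQ (hfr : StFRO) (hw : Function.Injective w)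
    (hu : ∀ i, u (w i) = L (inv4 0 i)) (z : Fin 3 → ℝ) :
    fr (QQ u w ς z) u = mm u w L ς z :=
  frame_eq (s := 0) (δ := fun _ => 1) hfr hw (fun _ => one_mul 1) hu (fun _ _ => rfl)
    (fun x i => by rw [QQ_at hw, one_mul]) fun x c hc => QQ_out z x hc

private theorem mm_ok (hf : StFF) (hfr : StFRO) {al : Fin 4 → Fin n → Bool}
    (hw : Function.Injective w) (hu : ∀ i, u (w i) = L (inv4 0 i))
    (hal : ∀ x, al (u x) x = true) (hal' : ∀ i j, j ≠ i → al (L j) (w i) = true)
    (hς : ∀ i, ς i * ς i = 1) {z : Fin 3 → ℝ} (hz : z ∈ Sx) : OKm al (mm u w L ς z) := by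
  rw [← fr_QQ hfr hw hu z]
  refine (hfr n al (QQ u w ς z) u).2.1 (QQ_orth hw hς (hf.2.1 z hz)) fun x c hxc => ?_
  by_cases hc : ∀ i, c ≠ w i
  · rw [QQ_out z x hc] at hxc
    have h : x = c := by
      by_contra h
      exact hxc (if_neg h)
    rw [h]
    exact hal c
  · push Not at hc
    obtain ⟨a, rfl⟩ := hc
    rw [QQ_at hw] at hxc
    by_cases hx : ∀ i, x ≠ w i
    · exact absurd (vv_out _ _ hx) hxc
    · push Not at hx
      obtain ⟨b, rfl⟩ := hx
      rw [hu]
      apply hal'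
      intro hab
      apply hxc
      rw [vv_at hw, hab, UU_diag, mul_zero]

private theorem mm_smooth (hf : StFF) (l : Fin 4) (a b : Fin n) :
    ContDiffOn ℝ ∞ (fun z => mm u w L ς z l a b) Sx := by
  have hF : ∀ s, ContDiffOn ℝ ∞ (fun z => FF z s) Sx := fun s z hz =>
    (contDiffAt_pi.1 (hf.1 z hz) s).contDiffWithinAt
  have hU : ∀ j i, ContDiffOn ℝ ∞ (fun z => UU (FF z) j i) Sx := by
    intro j i
    unfold UU
    refine ContDiffOn.sum fun s _ => ?_
    split_ifs
    · exact contDiffOn_const.mul (hF s)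
    · exact contDiffOn_const
  have hv : ∀ j x, ContDiffOn ℝ ∞ (fun z => vv w ς (FF z) j x) Sx := by
    intro j x
    unfold vv
    refine ContDiffOn.sum fun i _ => ?_
    split_ifs
    · exact contDiffOn_const.mul (hU j i)
    · exact contDiffOn_const
  unfold mm
  simp only [Matrix.of_apply]
  refine ContDiffOn.add (ContDiffOn.sum fun j _ => ?_) contDiffOn_const
  split_ifs
  · exact (hv j a).mul (hv j b)
  · exact contDiffOn_const

/-! ### the three sides -/

private theorem rt_mul_w (hw : Function.Injective w) (e f θ φ : ℝ) {p q r t : Fin 4}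
    (h1 : r ≠ p) (h2 : r ≠ q) (h3 : t ≠ p) (h4 : t ≠ q) (a i : Fin 4) :
    (rt (w p) (w q) e θ * rt (w r) (w t) f φ) (w a) (w i) =
      if i = r ∨ i = t then rt r t f φ a i else rt p q e θ a i := by
  rw [rt_mul e f θ φ (hw.ne h1) (hw.ne h2) (hw.ne h3) (hw.ne h4)]
  unfold rt
  simp only [Matrix.of_apply, hw.eq_iff]

private theorem rt_mul_o1 (hw : Function.Injective w) (e f θ φ : ℝ) {p q r t : Fin 4}
    (h1 : r ≠ p) (h2 : r ≠ q) (h3 : t ≠ p) (h4 : t ≠ q) {x : Fin n} (hx : ∀ i, x ≠ w i)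
    (i : Fin 4) : (rt (w p) (w q) e θ * rt (w r) (w t) f φ) x (w i) = 0 := by
  rw [rt_mul e f θ φ (hw.ne h1) (hw.ne h2) (hw.ne h3) (hw.ne h4),
    rt_off_left f φ (hx r) (hx t), rt_off_left e θ (hx p) (hx q), if_neg (hx i), ite_self]

private theorem rt_mul_o2 (hw : Function.Injective w) (e f θ φ : ℝ) {p q r t : Fin 4}
    (h1 : r ≠ p) (h2 : r ≠ q) (h3 : t ≠ p) (h4 : t ≠ q) (x : Fin n) {c : Fin n}
    (hc : ∀ i, c ≠ w i) : (rt (w p) (w q) e θ * rt (w r) (w t) f φ) x c =
      if x = c then 1 else 0 := by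
  rw [rt_mul e f θ φ (hw.ne h1) (hw.ne h2) (hw.ne h3) (hw.ne h4),
    rt_off_right f φ (hc r) (hc t), rt_off_right e θ (hc p) (hc q), ite_self]

private theorem side_gen (hfr : StFRO) (hw : Function.Injective w) {z : Fin 3 → ℝ} {s : Fin 3}
    {u' : Fin n → Fin 4} {δ : Fin 4 → ℝ} {e f θ : ℝ} {p q r t : Fin 4}
    (h1 : r ≠ p) (h2 : r ≠ q) (h3 : t ≠ p) (h4 : t ≠ q)
    (hδ : ∀ i, δ i * δ i = 1) (hu1 : ∀ i, u' (w i) = L (inv4 s i))
    (hu2 : ∀ x, (∀ i, x ≠ w i) → u' x = u x)
    (h : ∀ a i, (if i = r ∨ i = t then rt r t f θ a i else rt p q e θ a i) =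
      δ i * (ς a * UU (FF z) (inv4 s i) a)) :
    fr (rt (w p) (w q) e θ * rt (w r) (w t) f θ) u' = mm u w L ς z := by
  refine frame_eq hfr hw hδ hu1 hu2 (fun x i => ?_) fun x c hc =>
    rt_mul_o2 hw e f θ θ h1 h2 h3 h4 x hc
  by_cases hx : ∀ i, x ≠ w i
  · rw [rt_mul_o1 hw e f θ θ h1 h2 h3 h4 hx, vv_out _ _ hx, mul_zero]
  · push Not at hx
    obtain ⟨a, rfl⟩ := hx
    rw [rt_mul_w hw e f θ θ h1 h2 h3 h4, h, vv_at hw]

private theorem tab0 {g : Fin 3 → ℝ} {θ : ℝ} (hς : ∀ i, ς i * ς i = 1)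
    (g0 : g 0 = Real.cos θ) (g1 : g 1 = Real.sin θ) (g2 : g 2 = 0) (a i : Fin 4) :
    (if i = 1 ∨ i = 3 then rt 1 3 (ς 1 * ς 3) θ a i
      else rt 2 0 (ς 2 * ς 0) θ a i) =
      (![-ς 0, ς 1, -ς 2, ς 3] : Fin 4 → ℝ) i * (ς a * UU g (inv4 0 i) a) := by
  fin_cases a <;> fin_cases i <;>
    simp [rt, UU, inv4, sU, Fin.sum_univ_three, g0, g1, g2] <;>
    first
      | ring1
      | linear_combination (-Real.cos θ) * hς 0
      | linear_combination (-Real.cos θ) * hς 1
      | linear_combination (-Real.cos θ) * hς 2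
      | linear_combination (-Real.cos θ) * hς 3

private theorem tab1 {g : Fin 3 → ℝ} {θ : ℝ} (hς : ∀ i, ς i * ς i = 1)
    (g0 : g 0 = 0) (g1 : g 1 = Real.cos θ) (g2 : g 2 = Real.sin θ) (a i : Fin 4) :
    (if i = 1 ∨ i = 0 then rt 1 0 (ς 1 * ς 0) θ a i
      else rt 3 2 (ς 3 * ς 2) θ a i) =
      (![-ς 0, -ς 1, ς 2, ς 3] : Fin 4 → ℝ) i * (ς a * UU g (inv4 1 i) a) := by
  fin_cases a <;> fin_cases i <;>
    simp [rt, UU, inv4, sU, Fin.sum_univ_three, g0, g1, g2] <;>
    first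
      | ring1
      | linear_combination (-Real.cos θ) * hς 0
      | linear_combination (-Real.cos θ) * hς 1
      | linear_combination (-Real.cos θ) * hς 2
      | linear_combination (-Real.cos θ) * hς 3

private theorem tab2 {g : Fin 3 → ℝ} {θ : ℝ} (hς : ∀ i, ς i * ς i = 1)
    (g0 : g 0 = Real.sin θ) (g1 : g 1 = 0) (g2 : g 2 = Real.cos θ) (a i : Fin 4) :
    (if i = 3 ∨ i = 0 then rt 3 0 (ς 3 * ς 0) θ a i
      else rt 2 1 (ς 2 * ς 1) θ a i) =
      (![-ς 0, ς 1, ς 2, -ς 3] : Fin 4 → ℝ) i * (ς a * UU g (inv4 2 i) a) := by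
  fin_cases a <;> fin_cases i <;>
    simp [rt, UU, inv4, sU, Fin.sum_univ_three, g0, g1, g2] <;>
    first
      | ring1
      | linear_combination (-Real.cos θ) * hς 0
      | linear_combination (-Real.cos θ) * hς 1
      | linear_combination (-Real.cos θ) * hς 2
      | linear_combination (-Real.cos θ) * hς 3

/-! ### the states -/

private theorem sw_w (hw : Function.Injective w) (v : Fin n → Fin 4) (p q r t i : Fin 4) :
    sw (sw v (w p) (w q)) (w r) (w t) (w i) =
      v (w (Equiv.swap p q (Equiv.swap r t i))) := by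
  unfold sw
  rw [hw.swap_apply, hw.swap_apply]

private theorem sw_o (v : Fin n → Fin 4) (p q r t : Fin 4) {x : Fin n} (hx : ∀ i, x ≠ w i) :
    sw (sw v (w p) (w q)) (w r) (w t) x = v x := by
  unfold sw
  rw [Equiv.swap_apply_of_ne_of_ne (hx r) (hx t), Equiv.swap_apply_of_ne_of_ne (hx p) (hx q)]

private theorem sig1 (i : Fin 4) :
    inv4 0 (Equiv.swap 2 0 (Equiv.swap 1 3 i)) = inv4 1 i := by
  revert i
  decide

private theorem sig2 (i : Fin 4) :
    inv4 1 (Equiv.swap 3 2 (Equiv.swap 1 0 i)) = inv4 2 i := by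
  revert i
  decide

private theorem sig3 (i : Fin 4) :
    inv4 2 (Equiv.swap 2 1 (Equiv.swap 3 0 i)) = inv4 0 i := by
  revert i
  decide

end fam

/-! ### the path -/

private theorem ez_01 : ez 0 1 = ez 1 0 := by
  funext i
  fin_cases i <;> simp [ez]

private theorem ez_12 : ez 1 1 = ez 2 0 := by
  funext i
  fin_cases i <;> simp [ez]

private theorem ez_20 : ez 2 1 = ez 0 0 := by
  funext i
  fin_cases i <;> simp [ez]

private theorem ez_mem (s : Fin 3) {t : ℝ} (h0 : 0 ≤ t) (h1 : t ≤ 1) : ez s t ∈ Sx := by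
  refine ⟨fun i => ?_, ?_⟩
  · unfold ez
    split_ifs
    · linarith
    · exact h0
    · exact le_rfl
  · fin_cases s <;> simp [ez, Fin.sum_univ_three]

/-- the path through the three sides -/
private def pp (s : ℝ) : Fin 3 → ℝ :=
  ![1 - stp (2 * s) + stp (4 * s - 3), stp (2 * s) - stp (4 * s - 2),
    stp (4 * s - 2) - stp (4 * s - 3)]

private theorem pp_smooth (hs : StSTP) : ContDiff ℝ ∞ pp := by
  have h : ∀ a b : ℝ, ContDiff ℝ ∞ fun s : ℝ => stp (a * s - b) := fun a b =>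
    hs.1.comp ((contDiff_const.mul contDiff_id).sub contDiff_const)
  have h2 : ContDiff ℝ ∞ fun s : ℝ => stp (2 * s) := hs.1.comp (contDiff_const.mul contDiff_id)
  rw [contDiff_pi]
  intro i
  fin_cases i
  · exact (contDiff_const.sub h2).add (h 4 3)
  · exact h2.sub (h 4 2)
  · exact (h 4 2).sub (h 4 3)

private theorem pp_1 (hs : StSTP) {s : ℝ} (h : s ≤ 1 / 2) : pp s = ez 0 (stp (2 * s)) := by
  have h1 : stp (4 * s - 2) = 0 := hs.2.2.1 _ (by linarith)
  have h2 : stp (4 * s - 3) = 0 := hs.2.2.1 _ (by linarith)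
  funext i
  fin_cases i <;> simp [pp, ez, h1, h2]

private theorem pp_2 (hs : StSTP) {s : ℝ} (h : 1 / 2 ≤ s) (h' : s ≤ 3 / 4) :
    pp s = ez 1 (stp (4 * s - 2)) := by
  have h1 : stp (2 * s) = 1 := hs.2.2.2.1 _ (by linarith)
  have h2 : stp (4 * s - 3) = 0 := hs.2.2.1 _ (by linarith)
  funext i
  fin_cases i <;> simp [pp, ez, h1, h2]

private theorem pp_3 (hs : StSTP) {s : ℝ} (h : 3 / 4 ≤ s) :
    pp s = ez 2 (stp (4 * s - 3)) := by
  have h1 : stp (2 * s) = 1 := hs.2.2.2.1 _ (by linarith)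
  have h2 : stp (4 * s - 2) = 1 := hs.2.2.2.1 _ (by linarith)
  funext i
  fin_cases i <;> simp [pp, ez, h1, h2]

/-! ### the theorem -/

/-- **TTA** -/
theorem hTTA (hf : StFF) (hs : StSTP) (hc : StCVX) (hfr : StFRO) (hr : StROT) : StTTA := by
  intro n al u w L ς hw _ hu hal hal' hς u₂ u₄ hu₂ hu₄
  have hu₂w : ∀ i, u₂ (w i) = L (inv4 1 i) := fun i => by
    rw [hu₂, sw_w hw, hu, sig1]
  have hu₂o : ∀ x, (∀ i, x ≠ w i) → u₂ x = u x := fun x hx => by
    rw [hu₂, sw_o u _ _ _ _ hx]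
  have hu₄w : ∀ i, u₄ (w i) = L (inv4 2 i) := fun i => by
    rw [hu₄, sw_w hw, hu₂w, sig2]
  have hu₄o : ∀ x, (∀ i, x ≠ w i) → u₄ x = u x := fun x hx => by
    rw [hu₄, sw_o u₂ _ _ _ _ hx, hu₂o x hx]
  refine ⟨?_, ?_⟩
  · funext x
    by_cases hx : ∀ i, x ≠ w i
    · rw [sw_o u₄ _ _ _ _ hx, hu₄o x hx]
    · push Not at hx
      obtain ⟨i, rfl⟩ := hx
      rw [sw_w hw, hu₄w, sig3, hu]
  -- the sides
  have hst := hs.2.1
  have hA : ∀ t : ℝ, 0 ≤ t → t ≤ 1 →
      fr (rt (w 2) (w 0) (ς 2 * ς 0) (Real.pi / 2 * t) *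
        rt (w 1) (w 3) (ς 1 * ς 3) (Real.pi / 2 * t)) u = mm u w L ς (ez 0 t) := by
    intro t h0 h1
    obtain ⟨g0, g1, g2⟩ := hf.2.2.1 0 t h0 h1
    refine side_gen (s := 0) (δ := ![-ς 0, ς 1, -ς 2, ς 3]) hfr hw (by decide) (by decide)
      (by decide) (by decide) (fun i => ?_) hu (fun _ _ => rfl) (tab0 hς g0 g1 g2)
    fin_cases i <;> simp [hς]
  have hB : ∀ t : ℝ, 0 ≤ t → t ≤ 1 →
      fr (rt (w 3) (w 2) (ς 3 * ς 2) (Real.pi / 2 * t) *
        rt (w 1) (w 0) (ς 1 * ς 0) (Real.pi / 2 * t)) u₂ = mm u w L ς (ez 1 t) := by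
    intro t h0 h1
    obtain ⟨g1, g2, g0⟩ := hf.2.2.1 1 t h0 h1
    refine side_gen (s := 1) (δ := ![-ς 0, -ς 1, ς 2, ς 3]) hfr hw (by decide) (by decide)
      (by decide) (by decide) (fun i => ?_) hu₂w hu₂o (tab1 hς g0 g1 g2)
    fin_cases i <;> simp [hς]
  have hC : ∀ t : ℝ, 0 ≤ t → t ≤ 1 →
      fr (rt (w 2) (w 1) (ς 2 * ς 1) (Real.pi / 2 * t) *
        rt (w 3) (w 0) (ς 3 * ς 0) (Real.pi / 2 * t)) u₄ = mm u w L ς (ez 2 t) := by
    intro t h0 h1
    obtain ⟨g2, g0, g1⟩ := hf.2.2.1 2 t h0 h1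
    refine side_gen (s := 2) (δ := ![-ς 0, ς 1, ς 2, -ς 3]) hfr hw (by decide) (by decide)
      (by decide) (by decide) (fun i => ?_) hu₄w hu₄o (tab2 hς g0 g1 g2)
    fin_cases i <;> simp [hς]
  have hrt : ∀ (a b : Fin n) (i j : Fin 4), a ≠ b → rt a b (ς i * ς j) 0 = 1 := by
    intro a b i j hab
    refine (hr n u a b (ς i * ς j) hab ?_).2.1
    linear_combination (ς j * ς j) * hς i + hς j
  have hp : ∀ (v : Fin n → Fin 4) (p q r t i j k l : Fin 4), p ≠ q → r ≠ t →
      fr (rt (w p) (w q) (ς i * ς j) (Real.pi / 2 * 0) *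
        rt (w r) (w t) (ς k * ς l) (Real.pi / 2 * 0)) v = pu v := by
    intro v p q r t i j k l h1 h2
    rw [mul_zero, hrt _ _ _ _ (hw.ne h1), hrt _ _ _ _ (hw.ne h2), mul_one]
    exact (hfr n al 1 v).2.2
  have hA0 : mm u w L ς (ez 0 0) = pu u := by
    rw [← hA 0 le_rfl zero_le_one]
    exact hp u 2 0 1 3 2 0 1 3 (by decide) (by decide)
  have hB0 : mm u w L ς (ez 1 0) = pu u₂ := by
    rw [← hB 0 le_rfl zero_le_one]
    exact hp u₂ 3 2 1 0 3 2 1 0 (by decide) (by decide)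
  have hC0 : mm u w L ς (ez 2 0) = pu u₄ := by
    rw [← hC 0 le_rfl zero_le_one]
    exact hp u₄ 2 1 3 0 2 1 3 0 (by decide) (by decide)
  -- the homotopy
  have hppS : ∀ s, pp s ∈ Sx := by
    intro s
    rcases le_total s (1 / 2) with h | h
    · rw [pp_1 hs h]
      exact ez_mem 0 (hst _).1 (hst _).2
    · rcases le_total s (3 / 4) with h' | h'
      · rw [pp_2 hs h h']
        exact ez_mem 1 (hst _).1 (hst _).2
      · rw [pp_3 hs h']
        exact ez_mem 2 (hst _).1 (hst _).2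
  have key := hc n al 3 Sx (mm u w L ς) (convex_stdSimplex ℝ (Fin 3)) (mm_smooth hf)
    (fun z hz => mm_ok hf hfr hw hu hal hal' hς hz) pp (fun _ => ez 0 0) (ez 0 0) (ez 0 0)
    (pp_smooth hs) contDiff_const hppS (fun _ => ez_mem 0 le_rfl zero_le_one)
    (fun s hs0 => by rw [pp_1 hs (by linarith), hs.2.2.1 _ (by linarith)])
    (fun s hs1 => by rw [pp_3 hs (by linarith), hs.2.2.2.1 _ (by linarith), ez_20])
    (fun _ _ => rfl) (fun _ _ => rfl)
  rw [hA0] at key
  convert key using 1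
  funext s l
  have e1 : 2 * (2 * s - 1) = 4 * s - 2 := by ring
  have e2 : 2 * (2 * s - 1) - 1 = 4 * s - 3 := by ring
  unfold mu
  simp only [e2]
  simp only [e1]
  rw [hA _ (hst _).1 (hst _).2, hB _ (hst _).1 (hst _).2, hC _ (hst _).1 (hst _).2]
  rcases le_total s (1 / 2) with h | h
  · rw [pp_1 hs h, hs.2.2.1 (4 * s - 2) (by linarith), hs.2.2.1 (4 * s - 3) (by linarith), hB0, hC0]
    abel
  · rw [hs.2.2.2.1 (2 * s) (by linarith), ez_01, hB0]
    rcases le_total s (3 / 4) with h' | h'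
    · rw [pp_2 hs h h', hs.2.2.1 (4 * s - 3) (by linarith), hC0]
      abel
    · rw [pp_3 hs h', hs.2.2.2.1 (4 * s - 2) (by linarith), ez_12, hC0]
      abel

end Pool.Agent.Helper70.UN
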